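import Pool.Agent.Singer.Racg

/-!
# The deformation `s_v ↦ 1 + a N_v`, `N_v = 1 + s_v` (project MP_984acc_SQ, module CMP)

* `th ρ h2 : RACG G →* (Module.End D M)[X]`, `gen v ↦ 1 + X * C (1 + ρ (gen v))`; `th_eval` : the value at `1` is `ρ`;
* `act l : (Module.End D M)[X] →+* Module.End D (Fin l → M)`, the action on `M[a] / (a ^ l)`;
* `trep l ρ h2 : RACG G →* Module.End D (Fin l → M)`; its image is a finite 2-group: `TQ`, `finite_TQ`, `isPGroup_TQ`,
  `trepQ`.
-/

set_option autoImplicit false
set_option linter.unusedSectionVars false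
set_option linter.unusedVariables false

open Polynomial

namespace Pool.Agent.Helper79.SQ

open Singer

section shift
variable {D : Type*} [DivisionRing D] {M : Type*} [AddCommGroup M] [Module D M]

/-- the shift on `M[a] / (a ^ l)` -/
def shf (l : ℕ) : Module.End D (Fin l → M) where
  toFun x n := if h : (n : ℕ) = 0 then 0 else x ⟨n - 1, by omega⟩
  map_add' x y := by
    funext n
    by_cases h : (n : ℕ) = 0
    · simp [h]
    · simp only [dif_neg h, Pi.add_apply]
  map_smul' a x := by
    funext n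
    by_cases h : (n : ℕ) = 0
    · simp [h]
    · simp only [dif_neg h, Pi.smul_apply, RingHom.id_apply]

theorem shf_apply (l : ℕ) (x : Fin l → M) (n : Fin l) :
    shf (D := D) l x n = if h : (n : ℕ) = 0 then 0 else x ⟨n - 1, by omega⟩ := rfl

theorem shf_pow (l k : ℕ) (x : Fin l → M) (n : Fin l) :
    ((shf l : Module.End D (Fin l → M)) ^ k) x n = if h : k ≤ (n : ℕ) then x ⟨n - k, by omega⟩ else 0 := by
  induction k generalizing n with
  | zero => simp
  | succ k ih =>
    rw [pow_succ', Module.End.mul_apply, shf_apply]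
    by_cases h : (n : ℕ) = 0
    · rw [dif_pos h, dif_neg (by omega)]
    · rw [dif_neg h, ih]
      by_cases h2 : k + 1 ≤ (n : ℕ)
      · rw [dif_pos (by simp only; omega), dif_pos h2]
        congr 1
        apply Fin.ext
        simp only
        omega
      · rw [dif_neg (by simp only; omega), dif_neg h2]

/-- constant operators -/
def dia (l : ℕ) : Module.End D M →+* Module.End D (Fin l → M) where
  toFun T := T.compLeft (Fin l)
  map_one' := rfl
  map_mul' _ _ := rfl
  map_zero' := rfl
  map_add' _ _ := rfl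

theorem dia_apply (l : ℕ) (T : Module.End D M) (x : Fin l → M) (n : Fin l) : dia l T x n = T (x n) := rfl

theorem dia_comm (l : ℕ) (T : Module.End D M) : Commute (dia l T) (shf l) := by
  apply LinearMap.ext
  intro x
  funext n
  show T (shf (D := D) l x n) = shf (D := D) l (dia l T x) n
  rw [shf_apply, shf_apply]
  by_cases h : (n : ℕ) = 0
  · rw [dif_pos h, dif_pos h, map_zero]
  · rw [dif_neg h, dif_neg h]
    rfl

/-- polynomials in operators act on `M[a] / (a ^ l)` -/
noncomputable def act (l : ℕ) : (Module.End D M)[X] →+* Module.End D (Fin l → M) :=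
  eval₂RingHom' (dia l) (shf l) (dia_comm l)

theorem act_X (l : ℕ) : act (D := D) (M := M) l X = shf l := eval₂_X _ _

theorem act_C (l : ℕ) (T : Module.End D M) : act l (C T) = dia l T := eval₂_C _ _

theorem act_apply (l : ℕ) (p : (Module.End D M)[X]) (x : Fin l → M) (n : Fin l) :
    act l p x n = ∑ k ∈ Finset.range ((n : ℕ) + 1), p.coeff k (if h : k ≤ (n : ℕ) then x ⟨n - k, by omega⟩ else 0) := by
  induction p using Polynomial.induction_on' with
  | add p q hp hq =>
    rw [map_add, LinearMap.add_apply, Pi.add_apply, hp, hq, ← Finset.sum_add_distrib]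
    refine Finset.sum_congr rfl fun k _ => ?_
    rw [coeff_add, LinearMap.add_apply]
  | monomial m T =>
    have h1 : act l (monomial m T) = dia l T * (shf l) ^ m := eval₂_monomial _ _
    rw [h1, Module.End.mul_apply, dia_apply, shf_pow]
    by_cases h : m ≤ (n : ℕ)
    · rw [Finset.sum_eq_single m]
      · rw [coeff_monomial, if_pos rfl]
      · intro k _ hk
        rw [coeff_monomial, if_neg (Ne.symm hk), LinearMap.zero_apply]
      · intro h2
        exact absurd (Finset.mem_range.2 (by omega)) h2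
    · rw [dif_neg h, map_zero, Finset.sum_eq_zero]
      intro k hk
      rw [Finset.mem_range] at hk
      rw [coeff_monomial, if_neg (by omega), LinearMap.zero_apply]

theorem act_X_pow (l : ℕ) {k : ℕ} (h : l ≤ k) : act (D := D) (M := M) l (X ^ k) = 0 := by
  rw [map_pow, act_X]
  apply LinearMap.ext
  intro x
  funext n
  rw [shf_pow, dif_neg (by omega)]
  rfl

end shift

section theta
variable {V : Type*} {G : SimpleGraph V} {D : Type*} [DivisionRing D] {M : Type*} [AddCommGroup M] [Module D M]

theorem end_two (h2 : ∀ x : M, x + x = 0) (T : Module.End D M) : T + T = 0 := by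
  apply LinearMap.ext
  intro x
  rw [LinearMap.add_apply, h2]
  rfl

theorem pol_two (h2 : ∀ x : M, x + x = 0) (p : (Module.End D M)[X]) : p + p = 0 := by
  ext1 k
  rw [coeff_add, end_two h2, coeff_zero]

/-- the operator `N_v = 1 + s_v` -/
def nop (ρ : RACG G →* Module.End D M) (v : V) : Module.End D M := 1 + ρ (Racg.gen G v)

theorem nop_sq (ρ : RACG G →* Module.End D M) (h2 : ∀ x : M, x + x = 0) (v : V) : nop ρ v * nop ρ v = 0 := by
  have h1 : ρ (Racg.gen G v) * ρ (Racg.gen G v) = 1 := by
    rw [← map_mul, Racg.gen_mul_gen, map_one]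
  unfold nop
  rw [add_mul, one_mul, mul_add, mul_one, h1]
  have h3 : (1 : Module.End D M) + ρ (Racg.gen G v) + (ρ (Racg.gen G v) + 1) =
      (1 + 1) + (ρ (Racg.gen G v) + ρ (Racg.gen G v)) := by abel
  rw [h3, end_two h2, end_two h2, add_zero]

theorem nop_comm (ρ : RACG G →* Module.End D M) {u v : V} (h : G.Adj u v) :
    nop ρ u * nop ρ v = nop ρ v * nop ρ u := by
  have h1 : ρ (Racg.gen G u) * ρ (Racg.gen G v) = ρ (Racg.gen G v) * ρ (Racg.gen G u) := by
    rw [← map_mul, Racg.gen_comm h, map_mul]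
  unfold nop
  rw [add_mul, one_mul, mul_add, mul_one, h1, add_mul, one_mul, mul_add, mul_one]
  abel

/-- the deformed generator -/
noncomputable def dgen (ρ : RACG G →* Module.End D M) (v : V) : (Module.End D M)[X] := 1 + X * C (nop ρ v)

theorem dgen_sq (ρ : RACG G →* Module.End D M) (h2 : ∀ x : M, x + x = 0) (v : V) : dgen ρ v * dgen ρ v = 1 := by
  unfold dgen
  have h1 : (X * C (nop ρ v)) * (X * C (nop ρ v)) = 0 := by
    rw [mul_assoc, ← mul_assoc (C (nop ρ v)), ← X_mul, mul_assoc, ← C_mul, nop_sq ρ h2, C_0, mul_zero, mul_zero]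
  rw [add_mul, one_mul, mul_add, mul_one, h1, add_zero, add_assoc, pol_two h2, add_zero]

theorem dgen_comm (ρ : RACG G →* Module.End D M) {u v : V} (h : G.Adj u v) :
    dgen ρ u * dgen ρ v = dgen ρ v * dgen ρ u := by
  unfold dgen
  have h1 : ∀ a b : V, (X * C (nop ρ a)) * (X * C (nop ρ b)) = X * X * C (nop ρ a * nop ρ b) := by
    intro a b
    rw [mul_assoc, ← mul_assoc (C (nop ρ a)), ← X_mul, mul_assoc, ← C_mul, mul_assoc]
  rw [add_mul, one_mul, mul_add, mul_one, h1, add_mul, one_mul, mul_add, mul_one, h1, nop_comm ρ h]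
  abel

/-- the deformed generator as a unit -/
noncomputable def dgenU (ρ : RACG G →* Module.End D M) (h2 : ∀ x : M, x + x = 0) (v : V) :
    ((Module.End D M)[X])ˣ := ⟨dgen ρ v, dgen ρ v, dgen_sq ρ h2 v, dgen_sq ρ h2 v⟩

/-- the deformation with values in the units -/
noncomputable def thU (ρ : RACG G →* Module.End D M) (h2 : ∀ x : M, x + x = 0) :
    RACG G →* ((Module.End D M)[X])ˣ :=
  Racg.lift (dgenU ρ h2) (fun v => Units.ext (dgen_sq ρ h2 v)) fun u v h => Units.ext (dgen_comm ρ h)

/-- the deformation -/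
noncomputable def th (ρ : RACG G →* Module.End D M) (h2 : ∀ x : M, x + x = 0) :
    RACG G →* (Module.End D M)[X] := (Units.coeHom _).comp (thU ρ h2)

variable (ρ : RACG G →* Module.End D M) (h2 : ∀ x : M, x + x = 0)

theorem th_gen (v : V) : th ρ h2 (Racg.gen G v) = 1 + X * C (1 + ρ (Racg.gen G v)) := by
  show ((thU ρ h2 (Racg.gen G v) : ((Module.End D M)[X])ˣ) : (Module.End D M)[X]) = _
  rw [thU, Racg.lift_gen]
  rfl

/-- the value at `a = 1` -/
noncomputable def evo : (Module.End D M)[X] →+* Module.End D M :=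
  eval₂RingHom' (RingHom.id _) 1 fun a => Commute.one_right _

theorem evo_eq (p : (Module.End D M)[X]) : evo p = p.eval 1 := rfl

theorem th_evo (w : RACG G) : evo (th ρ h2 w) = ρ w := by
  induction w using Racg.induction with
  | h1 => rw [map_one, map_one, map_one]
  | hm v w ih =>
    rw [map_mul, map_mul, map_mul, ih, th_gen, map_add, map_mul, map_one]
    have e1 : evo (X : (Module.End D M)[X]) = 1 := eval₂_X _ _
    have e2 : evo (C (1 + ρ (Racg.gen G v)) : (Module.End D M)[X]) = 1 + ρ (Racg.gen G v) := eval₂_C _ _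
    rw [e1, e2, one_mul, ← add_assoc, end_two h2, zero_add]

theorem th_eval (w : RACG G) : (th ρ h2 w).eval 1 = ρ w := th_evo ρ h2 w

theorem th_sum (w : RACG G) {d : ℕ} (hd : (th ρ h2 w).natDegree ≤ d) :
    ∑ k ∈ Finset.range (d + 1), (th ρ h2 w).coeff k = ρ w := by
  rw [← th_eval ρ h2 w, eval_eq_sum_range' (Nat.lt_succ_of_le hd)]
  refine Finset.sum_congr rfl fun k _ => ?_
  rw [one_pow, mul_one]

theorem th_coeff_zero (w : RACG G) : (th ρ h2 w).coeff 0 = 1 := by
  induction w using Racg.induction with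
  | h1 => rw [map_one, coeff_one_zero]
  | hm v w ih =>
    rw [map_mul, th_gen, add_mul, one_mul, coeff_add, ih, mul_assoc, coeff_X_mul_zero, add_zero]

theorem th_coeff_succ (v : V) (w : RACG G) (k : ℕ) : (th ρ h2 (Racg.gen G v * w)).coeff (k + 1) =
    (th ρ h2 w).coeff (k + 1) + nop ρ v * (th ρ h2 w).coeff k := by
  rw [map_mul, th_gen, add_mul, one_mul, coeff_add, mul_assoc, coeff_X_mul, coeff_C_mul]
  rfl

/-- the product of the operators along a word -/
def nword : List V → Module.End D M
  | [] => 1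
  | v :: u => nop ρ v * nword u

/-- coefficients are sums of words -/
theorem th_coeff_mem (w : RACG G) (k : ℕ) :
    (th ρ h2 w).coeff k ∈ AddSubgroup.closure (nword ρ '' {u : List V | u.length = k}) := by
  induction w using Racg.induction generalizing k with
  | h1 =>
    rw [map_one]
    rcases k with _ | k
    · rw [coeff_one_zero]
      exact AddSubgroup.subset_closure ⟨[], rfl, rfl⟩
    · rw [coeff_one, if_neg (by omega)]
      exact AddSubgroup.zero_mem _
  | hm v w ih =>
    rcases k with _ | k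
    · rw [th_coeff_zero]
      exact AddSubgroup.subset_closure ⟨[], rfl, rfl⟩
    · rw [th_coeff_succ]
      refine AddSubgroup.add_mem _ (ih (k + 1)) ?_
      have h3 := ih k
      generalize (th ρ h2 w).coeff k = y at h3 ⊢
      induction h3 using AddSubgroup.closure_induction with
      | mem x hx =>
        obtain ⟨u, hu, rfl⟩ := hx
        have hu' : u.length = k := hu
        exact AddSubgroup.subset_closure ⟨v :: u, by show (v :: u).length = k + 1; rw [List.length_cons, hu'], rfl⟩
      | zero => rw [mul_zero]; exact AddSubgroup.zero_mem _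
      | add x y _ _ hx hy => rw [mul_add]; exact AddSubgroup.add_mem _ hx hy
      | neg x _ hx => rw [mul_neg]; exact AddSubgroup.neg_mem _ hx

theorem finite_closure {A : Type*} [AddCommGroup A] (hA : ∀ x : A, x + x = 0) {S : Set A} (hS : S.Finite) :
    (AddSubgroup.closure S : Set A).Finite := by
  let _ : Module (ZMod 2) A := AddCommGroup.zmodModule (n := 2) fun x => by rw [two_nsmul]; exact hA x
  have h1 : FiniteDimensional (ZMod 2) (Submodule.span (ZMod 2) S) := FiniteDimensional.span_of_finite _ hS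
  have h3 : Finite (Submodule.span (ZMod 2) S) := Module.finite_of_finite (ZMod 2)
  have h4 : ((Submodule.span (ZMod 2) S : Submodule (ZMod 2) A) : Set A).Finite := Set.toFinite _
  refine h4.subset ?_
  have h5 : AddSubgroup.closure S ≤ (Submodule.span (ZMod 2) S).toAddSubgroup := by
    rw [AddSubgroup.closure_le]
    exact Submodule.subset_span
  exact h5

variable [Fintype V]

theorem finite_coeff (k : ℕ) : (Set.range fun w : RACG G => (th ρ h2 w).coeff k).Finite := by
  have h1 : (nword ρ '' {u : List V | u.length = k}).Finite := (List.finite_length_eq V k).image _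
  refine (finite_closure (end_two h2) h1).subset ?_
  rintro _ ⟨w, rfl⟩
  exact th_coeff_mem ρ h2 w k

/-- the truncated deformation -/
noncomputable def trep (l : ℕ) : RACG G →* Module.End D (Fin l → M) :=
  ((act l : (Module.End D M)[X] →+* Module.End D (Fin l → M)) : (Module.End D M)[X] →* _).comp (th ρ h2)

theorem trep_eq (l : ℕ) (w : RACG G) : trep ρ h2 l w = act l (th ρ h2 w) := rfl

theorem trep_apply (l : ℕ) (w : RACG G) (x : Fin l → M) (n : Fin l) : trep ρ h2 l w x n =
    ∑ k ∈ Finset.range ((n : ℕ) + 1),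
      (th ρ h2 w).coeff k (if h : k ≤ (n : ℕ) then x ⟨n - k, by omega⟩ else 0) :=
  act_apply l _ x n

theorem finite_range_trep (l : ℕ) : (Set.range (trep ρ h2 l)).Finite := by
  -- the operator only depends on the first `l` coefficients
  have h1 : (Set.range fun (w : RACG G) (k : Fin l) => (th ρ h2 w).coeff k).Finite := by
    refine (Set.Finite.pi' (t := fun k : Fin l => Set.range fun w : RACG G => (th ρ h2 w).coeff k)
      fun k => finite_coeff ρ h2 k).subset ?_
    rintro _ ⟨w, rfl⟩ k
    exact ⟨w, rfl⟩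
  let Φ : (Fin l → Module.End D M) → (Fin l → M) → Fin l → M := fun c x n =>
    ∑ k ∈ Finset.range ((n : ℕ) + 1), (if h : k < l then c ⟨k, h⟩ else 0)
      (if h : k ≤ (n : ℕ) then x ⟨n - k, by omega⟩ else 0)
  have h3 : (Set.range fun w : RACG G => (trep ρ h2 l w : (Fin l → M) → Fin l → M)).Finite := by
    refine (h1.image Φ).subset ?_
    rintro _ ⟨w, rfl⟩
    refine ⟨_, ⟨w, rfl⟩, ?_⟩
    funext x n
    show _ = trep ρ h2 l w x n
    rw [trep_apply]
    refine Finset.sum_congr rfl fun k hk => ?_
    rw [Finset.mem_range] at hk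
    rw [dif_pos (show k < l by omega)]
  refine Set.Finite.of_finite_image (f := fun T : Module.End D (Fin l → M) => (T : (Fin l → M) → Fin l → M))
    (h3.subset ?_) (fun T _ T' _ h => DFunLike.coe_injective h)
  rintro _ ⟨_, ⟨w, rfl⟩, rfl⟩
  exact ⟨w, rfl⟩

/-- powers -/
theorem th_pow (w : RACG G) (k : ℕ) : ∃ m : (Module.End D M)[X], th ρ h2 (w ^ 2 ^ k) = 1 + X ^ 2 ^ k * m := by
  induction k with
  | zero =>
    refine ⟨(th ρ h2 w).divX, ?_⟩
    rw [pow_zero, pow_one, pow_one]
    have h3 := X_mul_divX_add (th ρ h2 w)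
    rw [th_coeff_zero, C_1] at h3
    rw [add_comm, h3]
  | succ k ih =>
    obtain ⟨m, hm⟩ := ih
    refine ⟨m * m, ?_⟩
    rw [pow_succ 2 k, pow_mul w, pow_two, map_mul, hm, add_mul, one_mul, mul_add, mul_one, add_assoc,
      ← add_assoc (X ^ 2 ^ k * m), pol_two h2, zero_add, mul_assoc, ← mul_assoc m, ← X_pow_mul, mul_assoc,
      ← mul_assoc (X ^ 2 ^ k), ← pow_add, ← two_mul, mul_comm 2]

theorem trep_pow (l : ℕ) : ∃ k : ℕ, ∀ w : RACG G, trep ρ h2 l (w ^ 2 ^ k) = 1 := by
  obtain ⟨k, hk⟩ : ∃ k, l ≤ 2 ^ k := ⟨l, Nat.lt_two_pow_self.le⟩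
  refine ⟨k, fun w => ?_⟩
  obtain ⟨m, hm⟩ := th_pow ρ h2 w k
  rw [trep_eq, hm, map_add, map_one, map_mul, act_X_pow l hk, zero_mul, add_zero]

/-- the finite 2-group through which the truncated deformation factors -/
abbrev TQ (l : ℕ) := RACG G ⧸ (trep ρ h2 l).ker

theorem finite_TQ (l : ℕ) : Finite (TQ ρ h2 l) := by
  have h1 : Finite (Set.range (trep ρ h2 l)) := (finite_range_trep ρ h2 l)
  let f : TQ ρ h2 l → Set.range (trep ρ h2 l) := fun q => ⟨trep ρ h2 l q.out, q.out, rfl⟩
  refine Finite.of_injective f fun q q' h => ?_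
  have h3 : trep ρ h2 l q.out = trep ρ h2 l q'.out := congrArg Subtype.val h
  rw [← QuotientGroup.out_eq' q, ← QuotientGroup.out_eq' q', QuotientGroup.eq, MonoidHom.mem_ker, map_mul,
    ← h3, ← map_mul, inv_mul_cancel, map_one]

theorem isPGroup_TQ (l : ℕ) : IsPGroup 2 (TQ ρ h2 l) := by
  obtain ⟨k, hk⟩ := trep_pow ρ h2 l
  intro q
  refine ⟨k, ?_⟩
  obtain ⟨w, rfl⟩ := QuotientGroup.mk_surjective q
  rw [← QuotientGroup.mk_pow, QuotientGroup.eq_one_iff, MonoidHom.mem_ker]
  exact hk w

/-- the representation of the finite 2-group -/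
noncomputable def trepQ (l : ℕ) : TQ ρ h2 l →* Module.End D (Fin l → M) :=
  QuotientGroup.lift (trep ρ h2 l).ker (trep ρ h2 l) fun w hw => hw

theorem trepQ_mk (l : ℕ) (w : RACG G) : trepQ ρ h2 l (QuotientGroup.mk' _ w) = trep ρ h2 l w := rfl

end theta

end Pool.Agent.Helper79.SQ
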